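import Pool.Agent.Helper56.RZ.GoalsD

/-!
# Project RZ3: the image of a Bowen ball in a disc contains a ball (`RB`)
-/

set_option autoImplicit false

open Set Filter Topology MeasureTheory

open scoped ContDiff

namespace Pool.Agent.Helper88.RZ

open Pool.Agent.Helper56.RZ

theorem TAn {K : ℕ} {X : Type} [TopologicalSpace X] (D : Coc X K) (n : ℕ) (x : X) :
    D.T (D.f^[n] x) * D.An n x = D.An n x := by
  induction n with
  | zero => exact D.TT x
  | succ n ih =>
    rw [Function.iterate_succ_apply']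
    change D.T (D.f (D.f^[n] x)) * (D.A (D.f^[n] x) * D.An n x) = D.A (D.f^[n] x) * D.An n x
    rw [← mul_assoc, D.TA]

theorem rb (hRA : StmtRA) (hDI : StmtDI) : StmtRB := by
  intro K u M hM D S U h8
  obtain ⟨δA, hδA, hA⟩ := hRA K M hM D S U h8
  have hDI' := hDI K u M hM D S U h8
  haveI : CompactSpace M := isCompact_iff_compactSpace.1 hM
  have hUc : UniformContinuous U := CompactSpace.uniformContinuous_of_continuous h8.pair.contG
  obtain ⟨δU, hδU, hU⟩ := Metric.uniformContinuous_iff.1 hUc (1 / 4) (by norm_num)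
  refine ⟨min δA δU, lt_min hδA hδU, ?_⟩
  intro r lam δ β g g' hr hlam hδ hδ0 hD hβδ hβr q a0 ha0 v hv hvβ
  have hδ1 : δ ≤ δA := hδ0.trans (min_le_left _ _)
  have hδ2 : δ ≤ δU := hδ0.trans (min_le_right _ _)
  have hβ0 : 0 ≤ β := (norm_nonneg v).trans hvβ
  have ha0r : ‖a0‖ < r := by linarith
  obtain ⟨hder, hcont, hest, hrank⟩ := hDI' r lam g g' hlam hD q
  obtain ⟨-, -, hest0, -⟩ := hDI' r lam g g' hlam hD 0
  -- continuity of `g` on the ball
  have hgc : ∀ a, ‖a‖ < r → ContinuousAt g a := by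
    intro a ha
    have := (hD.der a ha).continuousAt
    exact Topology.IsInducing.subtypeVal.continuousAt_iff.2 this
  have hgj : ∀ j : ℕ, ∀ a, ‖a‖ < r →
      ContinuousAt (fun a => (D.f^[j] (g a) : E K)) a := by
    intro j a ha
    have h1 : Continuous (fun x : M => (D.f^[j] x : E K)) :=
      continuous_subtype_val.comp (D.f.continuous.iterate j)
    exact h1.continuousAt.comp (hgc a ha)
  -- a priori estimate
  have hap : ∀ (t : ℝ) (a : E u), 0 ≤ t → t ≤ 1 → ‖a‖ < r →
      (∀ j ≤ q, ‖(D.f^[j] (g a) : E K) - D.f^[j] (g a0)‖ ≤ δ / 2) →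
      U (D.f^[q] (g a0)) ((D.f^[q] (g a) : E K) - D.f^[q] (g a0)) = t • v →
      (∀ j ≤ q, ‖(D.f^[j] (g a) : E K) - D.f^[j] (g a0)‖ ≤ δ / 4) ∧ ‖a‖ ≤ 3 * r / 4 := by
    intro t a ht0 ht1 ha hB hUa
    have h1 := hA q (g a0) (g a0) (g a) (fun j hj => by
      refine ⟨?_, ?_⟩
      · rw [sub_self, norm_zero]; exact hδA.le
      · exact (hB j hj).trans (by linarith)) (hD.cone a0 a ha0r ha)
    have h2 : ‖U (D.f^[q] (g a0)) ((D.f^[q] (g a) : E K) - D.f^[q] (g a0))‖ ≤ β := by
      rw [hUa, norm_smul, Real.norm_eq_abs, abs_of_nonneg ht0]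
      nlinarith [norm_nonneg v]
    have h3 : ∀ j ≤ q, ‖(D.f^[j] (g a) : E K) - D.f^[j] (g a0)‖ ≤ 6 * β := by
      intro j hj
      refine (h1 j hj).trans ?_
      have h4 : (1 / 4 : ℝ) ^ (q - j) ≤ 1 := pow_le_one₀ (by norm_num) (by norm_num)
      have h5 : (0 : ℝ) ≤ (1 / 4) ^ (q - j) := by positivity
      have h6 := norm_nonneg (U (D.f^[q] (g a0)) ((D.f^[q] (g a) : E K) - D.f^[q] (g a0)))
      calc 6 * (1 / 4 : ℝ) ^ (q - j) *
            ‖U (D.f^[q] (g a0)) ((D.f^[q] (g a) : E K) - D.f^[q] (g a0))‖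
          ≤ 6 * 1 * ‖U (D.f^[q] (g a0)) ((D.f^[q] (g a) : E K) - D.f^[q] (g a0))‖ := by
            gcongr
        _ ≤ 6 * 1 * β := by gcongr
        _ = 6 * β := by ring
    refine ⟨fun j hj => (h3 j hj).trans (by linarith), ?_⟩
    have h7 := h3 0 (Nat.zero_le _)
    simp only [Function.iterate_zero, id_eq] at h7
    have h8 := hD.low a a0 ha ha0r
    have h9 : lam * ‖a - a0‖ ≤ lam * (r / 4) := by linarith
    have h10 : ‖a - a0‖ ≤ r / 4 := le_of_mul_le_mul_left h9 hlam
    have h11 : ‖a‖ ≤ ‖a - a0‖ + ‖a0‖ := by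
      have := norm_add_le (a - a0) a0
      rwa [sub_add_cancel] at this
    linarith
  -- the set of good parameters
  let s : Set ℝ := {t | ∃ a : E u, ‖a‖ < r ∧
    (∀ j ≤ q, ‖(D.f^[j] (g a) : E K) - D.f^[j] (g a0)‖ ≤ δ / 2) ∧
    U (D.f^[q] (g a0)) ((D.f^[q] (g a) : E K) - D.f^[q] (g a0)) = t • v}
  have hs0 : (0 : ℝ) ∈ s := by
    refine ⟨a0, ha0r, fun j hj => ?_, ?_⟩
    · rw [sub_self, norm_zero]; positivity
    · rw [sub_self, map_zero, zero_smul]
  -- closedness
  have hclosed : IsClosed (s ∩ Icc 0 1) := by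
    have hKc : IsCompact ((Icc (0 : ℝ) 1) ×ˢ (Metric.closedBall (0 : E u) (3 * r / 4))) :=
      isCompact_Icc.prod (isCompact_closedBall _ _)
    have hcj : ∀ j : ℕ, ContinuousOn (fun p : ℝ × E u => (D.f^[j] (g p.2) : E K))
        ((Icc (0 : ℝ) 1) ×ˢ (Metric.closedBall (0 : E u) (3 * r / 4))) := by
      intro j p hp
      have hp2 : ‖p.2‖ < r := by
        have := (mem_closedBall_zero_iff.1 hp.2)
        linarith
      exact ((hgj j p.2 hp2).comp continuousAt_snd).continuousWithinAt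
    let Z : Set (ℝ × E u) := {p | p ∈ (Icc (0 : ℝ) 1) ×ˢ (Metric.closedBall (0 : E u) (3 * r / 4)) ∧
      (∀ j ≤ q, ‖(D.f^[j] (g p.2) : E K) - D.f^[j] (g a0)‖ ≤ δ / 2) ∧
      U (D.f^[q] (g a0)) ((D.f^[q] (g p.2) : E K) - D.f^[q] (g a0)) = p.1 • v}
    have hZ : IsCompact Z := by
      have e : Z = (⋂ j ∈ Finset.range (q + 1),
          ((Icc (0 : ℝ) 1) ×ˢ (Metric.closedBall (0 : E u) (3 * r / 4))) ∩
            (fun p : ℝ × E u => ‖(D.f^[j] (g p.2) : E K) - D.f^[j] (g a0)‖) ⁻¹' (Iic (δ / 2))) ∩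
          (((Icc (0 : ℝ) 1) ×ˢ (Metric.closedBall (0 : E u) (3 * r / 4))) ∩
            (fun p : ℝ × E u => U (D.f^[q] (g a0)) ((D.f^[q] (g p.2) : E K) - D.f^[q] (g a0)) -
              p.1 • v) ⁻¹' {0}) := by
        ext p
        simp only [Z, mem_setOf_eq, mem_inter_iff, mem_iInter, Finset.mem_range, mem_preimage,
          mem_Iic, mem_singleton_iff, sub_eq_zero]
        constructor
        · rintro ⟨h1, h2, h3⟩
          exact ⟨fun j hj => ⟨h1, h2 j (by omega)⟩, h1, h3⟩
        · rintro ⟨h1, h2, h3⟩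
          exact ⟨h2, fun j hj => (h1 j (by omega)).2, h3⟩
      rw [e]
      refine (hKc.of_isClosed_subset (s := _) ?_ (fun p hp => hp.2.1))
      refine IsClosed.inter ?_ ?_
      · refine isClosed_biInter fun j _ => ?_
        exact ((hcj j).sub continuousOn_const).norm.preimage_isClosed_of_isClosed
          hKc.isClosed isClosed_Iic
      · refine ContinuousOn.preimage_isClosed_of_isClosed ?_ hKc.isClosed isClosed_singleton
        refine ContinuousOn.sub ?_ (continuousOn_fst.smul continuousOn_const)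
        exact (U (D.f^[q] (g a0))).continuous.comp_continuousOn ((hcj q).sub continuousOn_const)
    have e : s ∩ Icc 0 1 = Prod.fst '' Z := by
      ext t
      constructor
      · rintro ⟨⟨a, h1, h2, h3⟩, h4⟩
        have h5 := hap t a h4.1 h4.2 h1 h2 h3
        exact ⟨(t, a), ⟨⟨h4, mem_closedBall_zero_iff.2 h5.2⟩, h2, h3⟩, rfl⟩
      · rintro ⟨p, ⟨⟨h1, h2⟩, h3, h4⟩, rfl⟩
        have h5 := mem_closedBall_zero_iff.1 h2
        exact ⟨⟨p.2, by linarith, h3, h4⟩, h1⟩
    rw [e]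
    exact (hZ.image continuous_fst).isClosed
  have hone : (1 : ℝ) ∈ s := by
    refine IsClosed.mem_of_ge_of_forall_exists_gt hclosed hs0 zero_le_one ?_
    rintro t ⟨⟨a, h1, h2, h3⟩, h4⟩
    have h5 := hap t a h4.1 h4.2.le h1 h2 h3
    -- the map to the range of `U x*`
    let V : Submodule ℝ (E K) := LinearMap.range (U (D.f^[q] (g a0)) : E K →ₗ[ℝ] E K)
    let Ur : E K →L[ℝ] V := (U (D.f^[q] (g a0))).codRestrict V (fun w => ⟨w, rfl⟩)
    have hUr : ∀ w, (Ur w : E K) = U (D.f^[q] (g a0)) w := fun w => rfl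
    let θ : E u → V := fun a => Ur ((D.f^[q] (g a) : E K) - D.f^[q] (g a0))
    have hball : Metric.ball (0 : E u) r ∈ 𝓝 a :=
      Metric.isOpen_ball.mem_nhds (mem_ball_zero_iff.2 h1)
    have hθ : HasStrictFDerivAt θ (Ur ∘L (D.An q (g a) ∘L g' a)) a := by
      refine hasStrictFDerivAt_of_hasFDerivAt_of_continuousAt
        (f' := fun a => Ur ∘L (D.An q (g a) ∘L g' a)) ?_ ?_
      · filter_upwards [hball] with b hb
        exact Ur.hasFDerivAt.comp b ((hder b (mem_ball_zero_iff.1 hb)).sub_const _)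
      · have hc : ContinuousAt (fun a => D.An q (g a) ∘L g' a) a := hcont.continuousAt hball
        exact (ContinuousLinearMap.compL ℝ (E u) (E K) V Ur).continuous.continuousAt.comp hc
    have hinj : ∀ w, (Ur ∘L (D.An q (g a) ∘L g' a)) w = 0 → w = 0 := by
      intro w hw
      have e1 : U (D.f^[q] (g a0)) (D.An q (g a) (g' a w)) = 0 := by
        have : (Ur (D.An q (g a) (g' a w)) : E K) = 0 := by
          have h := congrArg (fun z : V => (z : E K)) hw
          exact h
        rw [hUr] at this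
        exact this
      obtain ⟨c1, c2, c3, c4⟩ := hest a h1 w
      obtain ⟨-, -, d3, -⟩ := hest0 a h1 w
      -- cone at time zero
      have ht : D.T (g a) (g' a w) = g' a w := by
        have := hD.tan a h1
        exact congrArg (fun L : E u →L[ℝ] E K => L w) this
      have d3' : ‖S (g a) (g' a w)‖ ≤ ‖U (g a) (g' a w)‖ := by
        have e2 : D.An 0 (g a) (g' a w) = g' a w := ht
        rw [e2] at d3
        exact d3
      have hsum : ∀ (x : M) (z : E K), D.T x z = z → z = S x z + U x z := by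
        intro x z hz
        have e3 := h8.pair.sum x
        have e4 : (S x + U x) z = D.T x z := by rw [e3]
        rw [ContinuousLinearMap.add_apply, hz] at e4
        exact e4.symm
      have f1 : ‖g' a w‖ ≤ 2 * ‖U (g a) (g' a w)‖ := by
        have e5 := hsum (g a) (g' a w) ht
        calc ‖g' a w‖ = ‖S (g a) (g' a w) + U (g a) (g' a w)‖ := by rw [← e5]
          _ ≤ ‖S (g a) (g' a w)‖ + ‖U (g a) (g' a w)‖ := norm_add_le _ _
          _ ≤ 2 * ‖U (g a) (g' a w)‖ := by linarith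
      have hT2 : D.T (D.f^[q] (g a)) (D.An q (g a) (g' a w)) = D.An q (g a) (g' a w) := by
        have := TAn D q (g a)
        exact congrArg (fun L : End K => L (g' a w)) this
      have f2 : ‖D.An q (g a) (g' a w)‖ ≤ 2 * ‖U (D.f^[q] (g a)) (D.An q (g a) (g' a w))‖ := by
        have e5 := hsum _ _ hT2
        calc ‖D.An q (g a) (g' a w)‖ = ‖S (D.f^[q] (g a)) (D.An q (g a) (g' a w)) +
              U (D.f^[q] (g a)) (D.An q (g a) (g' a w))‖ := by rw [← e5]
          _ ≤ ‖S (D.f^[q] (g a)) (D.An q (g a) (g' a w))‖ +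
              ‖U (D.f^[q] (g a)) (D.An q (g a) (g' a w))‖ := norm_add_le _ _
          _ ≤ 2 * ‖U (D.f^[q] (g a)) (D.An q (g a) (g' a w))‖ := by linarith
      have f3 : ‖U (D.f^[q] (g a)) - U (D.f^[q] (g a0))‖ ≤ 1 / 4 := by
        have h6 : dist (D.f^[q] (g a)) (D.f^[q] (g a0)) < δU := by
          rw [Subtype.dist_eq, dist_eq_norm]
          have := h2 q le_rfl
          linarith
        have h7 := hU h6
        rw [dist_eq_norm] at h7
        exact h7.le
      have f4 : ‖U (D.f^[q] (g a)) (D.An q (g a) (g' a w))‖ ≤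
          1 / 4 * ‖D.An q (g a) (g' a w)‖ := by
        have e6 : U (D.f^[q] (g a)) (D.An q (g a) (g' a w)) =
            (U (D.f^[q] (g a)) - U (D.f^[q] (g a0))) (D.An q (g a) (g' a w)) := by
          rw [ContinuousLinearMap.sub_apply, e1, sub_zero]
        rw [e6]
        refine (ContinuousLinearMap.le_opNorm _ _).trans ?_
        exact mul_le_mul_of_nonneg_right f3 (norm_nonneg _)
      have f5 : ‖U (D.f^[q] (g a)) (D.An q (g a) (g' a w))‖ ≤ 0 := by linarith
      have f6 : lam * ‖w‖ ≤ 0 := by linarith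
      have f7 : ‖w‖ ≤ 0 := by
        by_contra hne
        push_neg at hne
        have := mul_pos hlam hne
        linarith
      exact norm_le_zero_iff.1 f7
    have hVu : Module.finrank ℝ V = u := hrank a0 ha0r
    have hsurj : LinearMap.range ((Ur ∘L (D.An q (g a) ∘L g' a) : E u →L[ℝ] V) :
        E u →ₗ[ℝ] V) = ⊤ := by
      rw [LinearMap.range_eq_top]
      refine (LinearMap.injective_iff_surjective_of_finrank_eq_finrank ?_).1 ?_
      · rw [hVu, finrank_euclideanSpace_fin]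
      · rw [injective_iff_map_eq_zero]
        exact hinj
    have hmap := hθ.map_nhds_eq_of_surj hsurj
    -- the neighbourhood of `a`
    have hW : {b : E u | ‖b‖ < r ∧
        ∀ j ≤ q, ‖(D.f^[j] (g b) : E K) - D.f^[j] (g a0)‖ ≤ δ / 2} ∈ 𝓝 a := by
      have hW1 : ∀ j ∈ Finset.range (q + 1), ∀ᶠ b in 𝓝 a,
          ‖(D.f^[j] (g b) : E K) - D.f^[j] (g a0)‖ < δ / 2 := by
        intro j hj
        have hc : ContinuousAt (fun b => ‖(D.f^[j] (g b) : E K) - D.f^[j] (g a0)‖) a :=
          ((hgj j a h1).sub continuousAt_const).norm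
        refine hc.eventually_lt continuousAt_const ?_
        have := h5.1 j (by simpa [Nat.lt_succ_iff] using hj)
        linarith
      have hW2 := (Filter.eventually_all_finset (Finset.range (q + 1))).2 hW1
      filter_upwards [hball, hW2] with b hb hb2
      exact ⟨mem_ball_zero_iff.1 hb, fun j hj => (hb2 j (Finset.mem_range.2 (by omega))).le⟩
    have hv' : v ∈ V := ⟨v, hv⟩
    have hθa : θ a = t • (⟨v, hv'⟩ : V) := by
      apply Subtype.ext
      exact h3
    have himg : θ '' {b : E u | ‖b‖ < r ∧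
        ∀ j ≤ q, ‖(D.f^[j] (g b) : E K) - D.f^[j] (g a0)‖ ≤ δ / 2} ∈ 𝓝 (t • (⟨v, hv'⟩ : V)) := by
      rw [← hθa, ← hmap]
      exact Filter.image_mem_map hW
    have hct : ContinuousAt (fun τ : ℝ => τ • (⟨v, hv'⟩ : V)) t :=
      (continuous_id.smul continuous_const).continuousAt
    have hev : ∀ᶠ τ in 𝓝 t, τ ∈ s := by
      filter_upwards [hct.preimage_mem_nhds himg] with τ hτ
      obtain ⟨b, ⟨hb1, hb2⟩, hb3⟩ := hτ
      refine ⟨b, hb1, hb2, ?_⟩
      have h := congrArg (fun z : V => (z : E K)) hb3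
      exact h
    have hev2 : ∀ᶠ τ in 𝓝[>] t, τ ∈ s ∩ Ioc t 1 := by
      have h6 : ∀ᶠ τ in 𝓝[>] t, τ ∈ s := nhdsWithin_le_nhds hev
      filter_upwards [h6, Ioc_mem_nhdsGT h4.2] with τ h7 h8
      exact ⟨h7, h8⟩
    exact hev2.exists
  obtain ⟨a, h1, h2, h3⟩ := hone
  refine ⟨a, h1, h2, ?_⟩
  rw [h3, one_smul]

end Pool.Agent.Helper88.RZ
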